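import Pool.Agent.H.MP_ab74d4_pr.E

set_option autoImplicit false
open MeasureTheory ProbabilityTheory Finset Filter Topology
open scoped ENNReal

namespace Pool.Agent.Results.MP_ab74d4_pr.Full

variable {Ω : Type} [MeasurableSpace Ω]

def StdLaw (ν : Measure ℝ) : Prop :=
  IsProbabilityMeasure ν ∧ MemLp id 2 ν ∧ ∫ x, x ∂ν = 0 ∧ Var[id; ν] = 1

def IsIID (P : Measure Ω) (ξ : ℕ → Ω → ℝ) (ν : Measure ℝ) : Prop :=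
  IsProbabilityMeasure P ∧ (∀ k, Measurable (ξ k)) ∧ iIndepFun ξ P ∧ ∀ k, P.map (ξ k) = ν

noncomputable def reP (ξ : ℕ → Ω → ℝ) (n : ℕ) (θ : UnitAddCircle) (ω : Ω) : ℝ :=
  (∑ k ∈ Icc 1 n, ((1 / √k * ξ k ω : ℝ) : ℂ) * (AddCircle.toCircle θ : ℂ) ^ k).re

noncomputable def mu (P : Measure Ω) (ξ : ℕ → Ω → ℝ) (γ : ℝ) (n : ℕ) (ω : Ω) :
    Measure UnitAddCircle :=
  volume.withDensity fun θ =>
    ENNReal.ofReal (Real.exp (γ * reP ξ n θ ω - γ ^ 2 / 2 * Var[reP ξ n θ; P]))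

def IsLimit (P : Measure Ω) (ξ : ℕ → Ω → ℝ) (γ : ℝ) (m : Ω → Measure UnitAddCircle) : Prop :=
  (∀ ω, IsFiniteMeasure (m ω)) ∧ Measurable m ∧ ∀ᵐ ω ∂P, ∀ f : C(UnitAddCircle, ℝ),
    Tendsto (fun n => ∫ θ, f θ ∂mu P ξ γ n ω) atTop (𝓝 (∫ θ, f θ ∂m ω))

noncomputable def mdim (μ : Measure UnitAddCircle) : ℝ≥0∞ :=
  ⨅ (A : Set UnitAddCircle) (_ : MeasurableSet A) (_ : μ Aᶜ = 0), dimH A

open Pool.Agent.H.MP_ab74d4_pr in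
theorem result :
    (∀ ν, StdLaw ν → ∀ (Ω : Type) [MeasurableSpace Ω] (P : Measure Ω) (ξ : ℕ → Ω → ℝ),
      IsIID P ξ ν → ∀ γ : ℝ, 0 < γ → ∃ m, IsLimit P ξ γ m) ∧
    (∃ ν, StdLaw ν ∧ ∀ (Ω : Type) [MeasurableSpace Ω] (P : Measure Ω) (ξ : ℕ → Ω → ℝ),
      IsIID P ξ ν → ∀ γ : ℝ, 0 < γ → ∀ m, IsLimit P ξ γ m → ∀ᵐ ω ∂P, m ω = 0 ∧ mdim (m ω) = 0) ∧
    (∀ (Ω : Type) [MeasurableSpace Ω] (P : Measure Ω) (ξ : ℕ → Ω → ℝ),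
      IsIID P ξ (gaussianReal 0 1) → ∀ γ : ℝ, 0 < γ → γ ≤ 1 / 2 → ∀ m, IsLimit P ξ γ m →
        ∀ᵐ ω ∂P, 1 / 8 ≤ mdim (m ω)) := by
  have key : ∀ {ν} {Ω : Type} [MeasurableSpace Ω] {P : Measure Ω} {ξ : ℕ → Ω → ℝ}, Law ν →
      IID P ξ ν → ∀ γ n ω (f : UnitAddCircle → ℝ), ∫ θ, f θ ∂mu P ξ γ n ω =
        ∫ z, f z * Dn γ (fun k => ξ k ω) (Icc 1 n) z := by
    intro ν Ω _ P ξ hν h γ n ω f
    have e : ∀ θ, reP ξ n θ = fun ω => ∑ k ∈ Icc 1 n, co k θ / √k * ξ k ω := fun θ => by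
      ext ω
      simp only [reP, Complex.re_sum, Complex.re_ofReal_mul, co]
      exact sum_congr rfl fun k _ => by ring
    rw [← int_wd volume (Dn_cont _ _) fun z => (Real.exp_pos _).le, mu]
    congr 4
    ext θ
    simp only [e, h.var hν, Dn, mul_sum, ← sum_sub_distrib]
    congr 2
    exact sum_congr rfl fun k _ => by ring
  refine ⟨fun ν ⟨a, b, c, d⟩ Ω _ P ξ ⟨_, h1, h2, h3⟩ γ hγ => ?_, ?_,
    fun Ω _ P ξ ⟨_, h1, h2, h3⟩ γ h4 h5 m ⟨m1, _, m2⟩ => ?_⟩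
  · simpa only [IsLimit, key ⟨a, b, c, d⟩ ⟨h1, h2, h3⟩] using
      IID.limit ⟨h1, h2, h3⟩ ⟨a, b, c, d⟩ hγ
  · obtain ⟨ν, hν, hd⟩ := exists_law
    refine ⟨ν, ⟨hν.pr, hν.l2, hν.m1, hν.m2⟩, fun Ω _ P ξ ⟨_, h1, h2, h3⟩ γ hγ m ⟨m1, _, m2⟩ => ?_⟩
    filter_upwards [m2, IID.zero ⟨h1, h2, h3⟩ hν hγ hd] with ω a1 a2
    have a3 := a1 1
    simp only [key hν ⟨h1, h2, h3⟩, ContinuousMap.one_apply, one_mul] at a3
    have a4 : m ω = 0 := by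
      simpa [measureReal_eq_zero_iff] using tendsto_nhds_unique a3 a2
    refine ⟨a4, nonpos_iff_eq_zero.1 (iInf_le_of_le ∅ ?_)⟩
    simp [a4]
  · have hγ : γ ^ 2 ≤ 1 / 4 := by nlinarith
    filter_upwards [m2, IID.nonzero ⟨h1, h2, h3⟩ hγ, IID.small ⟨h1, h2, h3⟩ hγ] with ω a1 a2 a3
    simp only [key law_gauss ⟨h1, h2, h3⟩] at a1
    obtain ⟨J, hJ⟩ := eventually_atTop.1 a3
    refine le_iInf fun A => le_iInf fun _ => le_iInf fun hA => ?_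
    rw [one_div]
    refine dim_le (μ := m ω) (fun j hj i hi => hJ j hj i hi _ (a1 _)) fun h0 => a2 ?_
    have a4 : m ω = 0 := Measure.measure_univ_eq_zero.1
      (Set.union_compl_self A ▸ measure_union_null h0 hA)
    simpa [a4] using a1 1

end Pool.Agent.Results.MP_ab74d4_pr.Full
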